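import Pool.Agent.Q204.NS.Pair

/-!
# Multiplication does not respect divisibility-equivalence of ultrafilters
-/

namespace Pool.Agent.Results.MP_5ff22d_lc.ProductNotCongruence

open Q204.NS

/-- `F` tilde-divides `G`: every upward closed member of `F` is a member of `G`. -/
def TildeDvd (F G : Set (Set ℕ)) : Prop := F ∩ upClosed ⊆ G

/-- `F =_∼ G`: tilde-divisibility in both directions. -/
def TildeEq (F G : Set (Set ℕ)) : Prop := TildeDvd F G ∧ TildeDvd G F

/-- **Answer.** There are nonstandard extensions of `ℕ` in which every ultrafilter has a nonempty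
monad, and in every such extension there are distinct nonstandard primes `x`, `y` of the same type
(so `v(x) = v(y)`) and `z` in the star-image of the powers of two (so `z` is coprime to both) with
`v(x z) ≠_∼ v(y z)`. -/
theorem result :
    (∃ (M : Type) (_ : fullLang.Structure M), IsExtension M ∧
      ∀ F : Ultrafilter ℕ, (monad M F).Nonempty) ∧
    ∀ (M : Type) [fullLang.Structure M], IsExtension M →
      (∀ F : Ultrafilter ℕ, (monad M F).Nonempty) →
      ∃ x y z : M, x ≠ y ∧ x ∈ star M {p | p.Prime} ∧ y ∈ star M {p | p.Prime} ∧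
        z ∈ star M {m | ∃ k, m = 2 ^ k} ∧
        typ x = typ y ∧ TildeEq (typ x) (typ y) ∧
        ¬ TildeEq (typ (starOp (fun a b => a * b) x z)) (typ (starOp (fun a b => a * b) y z)) := by
  refine ⟨⟨Big, inferInstance, big_ext, big_monad⟩, ?_⟩
  intro M _ hM hmon
  -- a nonprincipal ultrafilter containing the set of odd primes
  have hinf : {p : ℕ | p.Prime ∧ p ≠ 2}.Infinite := by
    have h1 := Nat.infinite_setOf_prime
    have h2 := h1.diff (Set.finite_singleton 2)
    refine h2.mono ?_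
    rintro p ⟨hp, hp2⟩
    exact ⟨hp, hp2⟩
  obtain ⟨F, hF1, hF2⟩ : ∃ F : Ultrafilter ℕ, {p : ℕ | p.Prime ∧ p ≠ 2} ∈ F ∧
      ∀ n : ℕ, {n} ∉ F := by
    have hne : (Filter.cofinite ⊓ Filter.principal {p : ℕ | p.Prime ∧ p ≠ 2}).NeBot := by
      rw [Filter.cofinite_inf_principal_neBot_iff]
      exact hinf
    obtain ⟨F, hF⟩ := Ultrafilter.exists_le (Filter.cofinite ⊓
      Filter.principal {p : ℕ | p.Prime ∧ p ≠ 2})
    refine ⟨F, (hF.trans inf_le_right) (Filter.mem_principal_self _), fun n hn => ?_⟩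
    have h1 : ({n} : Set ℕ)ᶜ ∈ F := (hF.trans inf_le_left) (Set.finite_singleton n).compl_mem_cofinite
    exact (Ultrafilter.compl_mem_iff_notMem.1 h1) hn
  obtain ⟨w, hw⟩ := hmon (sq F)
  let f : ℕ → ℕ := fun n => n.unpair.1
  let g : ℕ → ℕ := fun n => n.unpair.2
  let h : ℕ → ℕ := fun n => 2 ^ n.unpair.1
  have hx : starFn f w ∈ monad M F := by
    have := fn_mem_monad hM hw f
    rwa [show (sq F).map f = F from sq_fst F] at this
  have hy : starFn g w ∈ monad M F := by
    have := fn_mem_monad hM hw g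
    rwa [show (sq F).map g = F from sq_snd F] at this
  have hprime : {p : ℕ | p.Prime} ∈ F := Filter.mem_of_superset hF1 fun p hp => hp.1
  have htyp : typ (starFn f w) = typ (starFn g w) := by
    rw [typ_eq hM hx, typ_eq hM hy]
  refine ⟨starFn f w, starFn g w, starFn h w, ?_, hx _ hprime, hy _ hprime, ?_, htyp, ?_, ?_⟩
  · intro he
    rw [starFn_eq hM, mem_star_iff hM hw] at he
    obtain ⟨n, hn1, hn2⟩ := Ultrafilter.nonempty_of_mem (Filter.inter_mem he (sq_lt F hF2))
    exact absurd hn1 (ne_of_lt hn2)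
  · rw [mem_star_fn hM, mem_star_iff hM hw]
    exact Filter.univ_mem' fun n => ⟨_, rfl⟩
  · rw [htyp]
    exact ⟨Set.inter_subset_left, Set.inter_subset_left⟩
  · rw [starOp_fn hM, starOp_fn hM]
    intro he
    let B : Set ℕ := {n | ∃ p : ℕ, p.Prime ∧ p ≠ 2 ∧ p * 2 ^ p ∣ n}
    have hB : B ∈ upClosed := by
      apply Set.Subset.antisymm
      · rintro n ⟨a, ⟨p, hp, hp2, hpa⟩, han⟩
        exact ⟨p, hp, hp2, hpa.trans han⟩
      · intro n hn
        exact ⟨n, hn, dvd_rfl⟩
    have hBx : B ∈ typ (starFn (fun n => f n * h n) w) := by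
      show _ ∈ star M B
      rw [mem_star_fn hM, mem_star_iff hM hw]
      filter_upwards [sq_fst_mem F hF1] with n hn
      exact ⟨f n, hn.1, hn.2, dvd_rfl⟩
    have hBy : starFn (fun n => g n * h n) w ∈ star M B := he.1 ⟨hBx, hB⟩
    rw [mem_star_fn hM, mem_star_iff hM hw] at hBy
    obtain ⟨n, ⟨hn1, hn3⟩, hn2⟩ := Ultrafilter.nonempty_of_mem
      (Filter.inter_mem (Filter.inter_mem hBy (sq_lt F hF2)) (sq_snd_mem F hF1))
    obtain ⟨p, hp, hp2, hpn⟩ := hn1
    have hlt : f n < g n := hn3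
    have hg : (g n).Prime ∧ g n ≠ 2 := hn2
    -- `p` divides `g n * 2 ^ f n`, so `p = g n`
    have h1 : p ∣ g n * 2 ^ f n := (dvd_mul_right p _).trans hpn
    have h2 : p = g n := by
      rcases (hp.dvd_mul).1 h1 with h3 | h3
      · exact (Nat.prime_dvd_prime_iff_eq hp hg.1).1 h3
      · exact absurd ((Nat.prime_dvd_prime_iff_eq hp Nat.prime_two).1 (hp.dvd_of_dvd_pow h3)) hp2
    rw [h2] at hpn
    have h3 : 2 ^ g n ∣ g n * 2 ^ f n := (dvd_mul_left _ _).trans hpn
    have h4 : Nat.Coprime (2 ^ g n) (g n) := by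
      apply Nat.Coprime.pow_left
      exact (Nat.coprime_primes Nat.prime_two hg.1).2 (Ne.symm hg.2)
    have h5 : 2 ^ g n ∣ 2 ^ f n := h4.dvd_of_dvd_mul_left h3
    have h6 := (Nat.pow_dvd_pow_iff_le_right (by norm_num)).1 h5
    omega

end Pool.Agent.Results.MP_5ff22d_lc.ProductNotCongruence
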